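import Pool.Agent.H84.Sgp

namespace Pool.Agent.Results.MP_be984c_lc.No

open Cardinal

theorem result (E : Setoid ℝ) (hS : ∀ x a b, E x a → E x b → E x (a + b))
    (han : MeasureTheory.AnalyticSet {p : ℝ × ℝ | E p.1 p.2}) :
    #(Quotient E) ≤ 3 ∨ #(Quotient E) = 𝔠 :=
  Pool.Agent.H84.Sgp.main E hS han

end Pool.Agent.Results.MP_be984c_lc.No
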